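import Pool.Agent.W597.CF.T
import Pool.Agent.W4.CF.Stms3

/-! Project CD: part TG. -/

set_option autoImplicit false

namespace Pool.Agent.W214.CD

open NumberField Finset Pool.Agent.W4.CF Pool.Agent.W597.CF

theorem t_TG (hSEL : S_SEL) (hRAD : S_RAD) : S_TG := by
  classical
  intro A B i hi1 hA hB
  intro c1 ε hc1 hε
  set η := ε / 8 with hη
  have hη0 : 0 < η := by positivity
  set c0 : ℝ := 1 + |(A : ℝ)| + |(B : ℝ)| with hc0
  have hc01 : 1 ≤ c0 := by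
    have := abs_nonneg (A : ℝ)
    have := abs_nonneg (B : ℝ)
    linarith
  obtain ⟨c2, C', k0, hc2, hC', hsel⟩ := hSEL c0 c1 η (by linarith) hc1 hη0
  obtain ⟨CA, hCA, hA'⟩ := hA c2 η hc2 hη0
  obtain ⟨CR, hCR, hR'⟩ := hRAD η hη0
  have hB1 : ∀ k : ℕ, ∃ C : ℝ, 0 < C ∧ (1 ≤ k → ∀ Y Z : ℝ, 1 ≤ Y → 1 ≤ Z → ∀ c : ℕ, 1 ≤ c →
      ∀ s : Finset (ℤ × ℤ),
      (∀ p ∈ s, IsCoprime p.1 p.2 ∧ |(p.1 : ℝ)| ≤ Y ∧ |(p.2 : ℝ)| ≤ Y ∧
      ∃ z : ℕ, 1 ≤ z ∧ (z : ℝ) ≤ Z ∧ Nat.Coprime z (i * c) ∧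
        (G A B p.1 p.2).natAbs = c * z ^ k) →
      (s.card : ℝ) ≤ C * (Y * c) ^ η * Z ^ ((2 : ℝ) / 3)) := by
    intro k
    by_cases hk : 1 ≤ k
    · obtain ⟨C, h1, h2⟩ := hB k η hk hη0
      exact ⟨C, h1, fun _ => h2⟩
    · exact ⟨1, one_pos, fun h => absurd h hk⟩
  choose CB hCB hB' using hB1
  set S1 : ℝ := CA + ∑ k ∈ Icc 2 k0, CB k with hS1
  have hS1pos : 0 < S1 := by
    have : 0 ≤ ∑ k ∈ Icc 2 k0, CB k := Finset.sum_nonneg (fun k _ => (hCB k).le)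
    linarith
  have hc0η : 0 < c0 ^ η := Real.rpow_pos_of_pos (by linarith) _
  refine ⟨C' * CR * c0 ^ η * c0 ^ η * S1, by positivity, ?_⟩
  intro m Y R hm him hY hR hRY s hs
  set f : ℤ × ℤ → ℕ := fun p => (G A B p.1 p.2).natAbs with hf
  have hfabs : ∀ p, (f p : ℝ) = |((G A B p.1 p.2 : ℤ) : ℝ)| := by
    intro p
    simp only [hf]
    rw [Nat.cast_natAbs]
    push_cast
    rfl
  have hBd := Bd_pos Y R hY hR
  have hYη : 0 < Y ^ η := Real.rpow_pos_of_pos (by linarith) _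
  set V : ℝ := C' * Y ^ η * Bd Y R with hV
  have hV0 : 0 < V := by positivity
  set N : ℕ := ⌊c0 * Y ^ 3⌋₊ with hN
  have hf1 : ∀ p ∈ s, 1 ≤ f p := by
    intro p hp
    have h2 := (hs p hp).2.1
    exact Nat.one_le_iff_ne_zero.2 (Int.natAbs_ne_zero.2 h2)
  have hfle : ∀ p ∈ s, (f p : ℝ) ≤ c0 * Y ^ 3 := by
    intro p hp
    rw [hfabs]
    exact G_le A B p.1 p.2 Y (hs p hp).1.2.1 (hs p hp).1.2.2.1
  have hfN : ∀ p ∈ s, f p ≤ N := fun p hp => Nat.le_floor (hfle p hp)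
  have hc0Y : 1 ≤ c0 * Y ^ 3 := by
    have : (1 : ℝ) ≤ Y ^ 3 := one_le_pow₀ hY
    nlinarith
  have hN1 : 1 ≤ N := by
    rw [hN, Nat.one_le_floor_iff]
    exact hc0Y
  have hNle : (N : ℝ) ≤ c0 * Y ^ 3 := Nat.floor_le (by linarith)
  have hE := hR' m N hm hN1
  have hNη : 0 ≤ (N : ℝ) ^ η := by positivity
  -- part A
  set sA := s.filter (fun p => ∃ q : ℕ, q ∣ f p ∧ (f p : ℝ) ≤ c2 * Y * q ∧
    (radp m q : ℝ) ≤ V) with hsA
  have hcardA : (sA.card : ℝ) ≤ (CA * (N : ℝ) ^ η * V) * (CR * ((m : ℝ) * N) ^ η) := by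
    refine cover m N sA (fun p q => (q : ℤ) ∣ G A B p.1 p.2 ∧
      |((G A B p.1 p.2 : ℤ) : ℝ)| ≤ c2 * Y * q ∧ (radp m q : ℝ) ≤ V) _ _ (by positivity) ?_ ?_ hE
    · intro p hp
      rw [hsA, Finset.mem_filter] at hp
      obtain ⟨hps, q, hq1, hq2, hq3⟩ := hp
      refine ⟨q, ?_, ?_, ?_, hq3⟩
      · rw [Finset.mem_Icc]
        have h1 := hf1 p hps
        exact ⟨Nat.pos_of_dvd_of_pos hq1 (by omega),
          (Nat.le_of_dvd (by omega) hq1).trans (hfN p hps)⟩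
      · rw [← Int.dvd_natAbs]
        exact_mod_cast hq1
      · rw [← hfabs]; exact hq2
    · intro q hq t ht htQ
      rw [Finset.mem_Icc] at hq
      rcases Finset.eq_empty_or_nonempty t with h0 | ⟨p0, hp0⟩
      · rw [h0, Finset.card_empty, Nat.cast_zero]
        have := radp_pos m q
        positivity
      have h1 := hA' Y hY q hq.1 t (fun p hp =>
        ⟨(hs p (Finset.mem_of_mem_filter p (ht hp))).1, (htQ p hp).1, (htQ p hp).2.1⟩)
      have h2 : (q : ℝ) ^ η ≤ (N : ℝ) ^ η :=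
        Real.rpow_le_rpow (by positivity) (by exact_mod_cast hq.2) hη0.le
      have hr0 : (0 : ℝ) < (radp m q : ℝ) := by exact_mod_cast radp_pos m q
      have h3 : (1 : ℝ) ≤ V * (1 / (radp m q : ℝ)) := by
        rw [mul_one_div, one_le_div hr0]
        exact (htQ p0 hp0).2.2
      calc (t.card : ℝ) ≤ CA * (q : ℝ) ^ η := h1
        _ ≤ CA * (N : ℝ) ^ η := mul_le_mul_of_nonneg_left h2 hCA.le
        _ ≤ CA * (N : ℝ) ^ η * (V * (1 / (radp m q : ℝ))) :=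
            le_mul_of_one_le_right (by positivity) h3
        _ = _ := by ring
  -- part B
  have hcardB : ∀ k ∈ Icc 2 k0, ((s.filter (fun p => (radp m (f p) : ℝ) ≤
      V * (fk m (f p) k : ℝ) ^ ((1 : ℝ) / 3))).card : ℝ) ≤
      (CB k * (Y * (N : ℝ)) ^ η * V) * (CR * ((m : ℝ) * N) ^ η) := by
    intro k hk
    rw [Finset.mem_Icc] at hk
    have hCBk := hCB k
    refine cover m N _ (fun p c => 1 ≤ fk m (f p) k ∧ f p = c * fk m (f p) k ^ k ∧
      Nat.Coprime (fk m (f p) k) (i * c) ∧ radp m (f p) = fk m (f p) k * radp m c) _ _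
      (by positivity) ?_ ?_ hE
    · intro p hp
      rw [Finset.mem_filter] at hp
      obtain ⟨c, h1, h2, h3, h4, h5⟩ := split m (f p) k i (hf1 p hp.1) him
      refine ⟨c, ?_, h2, h3, h4, h5⟩
      rw [Finset.mem_Icc]
      refine ⟨h1, le_trans ?_ (hfN p hp.1)⟩
      refine Nat.le_of_dvd (by have := hf1 p hp.1; omega) ?_
      exact ⟨_, h3⟩
    · intro c hc t ht htQ
      rw [Finset.mem_Icc] at hc
      have hr0 : (0 : ℝ) < (radp m c : ℝ) := by exact_mod_cast radp_pos m c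
      rcases Finset.eq_empty_or_nonempty t with h0 | ⟨p0, hp0⟩
      · rw [h0, Finset.card_empty, Nat.cast_zero]
        positivity
      have hz : ∀ p ∈ t, (fk m (f p) k : ℝ) ≤ (V / (radp m c : ℝ)) ^ ((3 : ℝ) / 2) := by
        intro p hp
        refine z_le _ _ V (by exact_mod_cast (htQ p hp).1) hr0 ?_
        have h1 := (Finset.mem_filter.1 (ht hp)).2
        rw [(htQ p hp).2.2.2] at h1
        push_cast at h1
        exact h1
      have hZ1 : 1 ≤ (V / (radp m c : ℝ)) ^ ((3 : ℝ) / 2) :=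
        le_trans (by exact_mod_cast (htQ p0 hp0).1) (hz p0 hp0)
      have h1 := hB' k (by omega) Y _ hY hZ1 c hc.1 t (fun p hp => by
        have hps := (Finset.mem_filter.1 (ht hp)).1
        exact ⟨(hs p hps).1.1, (hs p hps).1.2.1, (hs p hps).1.2.2.1, fk m (f p) k,
          (htQ p hp).1, hz p hp, (htQ p hp).2.2.1, (htQ p hp).2.1⟩)
      have h2 : (Y * (c : ℝ)) ^ η ≤ (Y * (N : ℝ)) ^ η := by
        refine Real.rpow_le_rpow (by positivity) ?_ hη0.le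
        exact mul_le_mul_of_nonneg_left (by exact_mod_cast hc.2) (by linarith)
      have h3 : ((V / (radp m c : ℝ)) ^ ((3 : ℝ) / 2)) ^ ((2 : ℝ) / 3) = V / (radp m c : ℝ) := by
        rw [← Real.rpow_mul (by positivity)]
        norm_num
      rw [h3] at h1
      calc (t.card : ℝ) ≤ CB k * (Y * c) ^ η * (V / (radp m c : ℝ)) := h1
        _ ≤ CB k * (Y * N) ^ η * (V / (radp m c : ℝ)) := by
            refine mul_le_mul_of_nonneg_right ?_ (by positivity)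
            exact mul_le_mul_of_nonneg_left h2 (hCB k).le
        _ = _ := by ring
  -- total
  have hcover : s ⊆ sA ∪ (Icc 2 k0).biUnion (fun k => s.filter (fun p =>
      (radp m (f p) : ℝ) ≤ V * (fk m (f p) k : ℝ) ^ ((1 : ℝ) / 3))) := by
    intro p hp
    rw [Finset.mem_union, Finset.mem_biUnion]
    rcases hsel m (f p) Y R hm (hf1 p hp) hY hR (hfle p hp) (hs p hp).2.2 hRY with
      ⟨q, h1, h2, h3⟩ | ⟨k, h1, h2, h3⟩
    · left
      rw [hsA, Finset.mem_filter]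
      exact ⟨hp, q, h1, h2, h3⟩
    · right
      exact ⟨k, Finset.mem_Icc.2 ⟨h1, h2⟩, Finset.mem_filter.2 ⟨hp, h3⟩⟩
  have hcard1 : (s.card : ℝ) ≤ sA.card + ∑ k ∈ Icc 2 k0, ((s.filter (fun p =>
      (radp m (f p) : ℝ) ≤ V * (fk m (f p) k : ℝ) ^ ((1 : ℝ) / 3))).card : ℝ) := by
    have h1 := (Finset.card_le_card hcover).trans
      ((Finset.card_union_le _ _).trans (Nat.add_le_add_left Finset.card_biUnion_le _))
    exact_mod_cast h1
  set X : ℝ := (m : ℝ) * Y with hX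
  have hm1 : (1 : ℝ) ≤ m := by exact_mod_cast hm
  have hYX : Y ≤ X := by rw [hX]; nlinarith
  have hX1 : 1 ≤ X := hY.trans hYX
  have hX0 : 0 < X := by linarith
  set W : ℝ := X ^ η with hW
  have hW1 : 1 ≤ W := Real.one_le_rpow hX1 hη0.le
  have hWn : ∀ n : ℕ, (c0 * X ^ n) ^ η = c0 ^ η * W ^ n := by
    intro n
    rw [Real.mul_rpow (by linarith) (by positivity), hW, ← Real.rpow_natCast, ← Real.rpow_natCast,
      ← Real.rpow_mul hX0.le, ← Real.rpow_mul hX0.le, mul_comm (n : ℝ) η]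
  have hY3 : Y ^ 3 ≤ X ^ 3 := pow_le_pow_left₀ (by linarith) hYX 3
  have hNX : (N : ℝ) ≤ c0 * X ^ 3 := hNle.trans (mul_le_mul_of_nonneg_left hY3 (by linarith))
  have hb1 : (N : ℝ) ^ η ≤ c0 ^ η * W ^ 4 := by
    have h1 : (N : ℝ) ^ η ≤ (c0 * X ^ 4) ^ η := by
      refine Real.rpow_le_rpow (by positivity) (hNX.trans ?_) hη0.le
      refine mul_le_mul_of_nonneg_left ?_ (by linarith)
      exact pow_le_pow_right₀ hX1 (by norm_num)
    rwa [hWn] at h1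
  have hb2 : (Y * (N : ℝ)) ^ η ≤ c0 ^ η * W ^ 4 := by
    have h1 : (Y * (N : ℝ)) ^ η ≤ (c0 * X ^ 4) ^ η := by
      refine Real.rpow_le_rpow (by positivity) ?_ hη0.le
      calc Y * (N : ℝ) ≤ X * (c0 * X ^ 3) := mul_le_mul hYX hNX (by positivity) hX0.le
        _ = _ := by ring
    rwa [hWn] at h1
  have hb3 : ((m : ℝ) * (N : ℝ)) ^ η ≤ c0 ^ η * W ^ 3 := by
    have h1 : ((m : ℝ) * (N : ℝ)) ^ η ≤ (c0 * X ^ 3) ^ η := by
      refine Real.rpow_le_rpow (by positivity) ?_ hη0.le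
      have h2 : (m : ℝ) ≤ (m : ℝ) ^ 3 := by
        calc (m : ℝ) = (m : ℝ) ^ 1 := by ring
          _ ≤ (m : ℝ) ^ 3 := pow_le_pow_right₀ hm1 (by norm_num)
      calc (m : ℝ) * (N : ℝ) ≤ (m : ℝ) ^ 3 * (c0 * Y ^ 3) :=
            mul_le_mul h2 hNle (by positivity) (by positivity)
        _ = c0 * X ^ 3 := by rw [hX]; ring
    rwa [hWn] at h1
  have hb4 : Y ^ η ≤ W := Real.rpow_le_rpow (by linarith) hYX hη0.le
  have hW8 : W ^ 8 = X ^ ε := by
    rw [hW, ← Real.rpow_natCast, ← Real.rpow_mul hX0.le, hη]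
    congr 1
    push_cast
    ring
  have hVb : V ≤ C' * W * Bd Y R := by
    rw [hV]
    exact mul_le_mul_of_nonneg_right (mul_le_mul_of_nonneg_left hb4 hC'.le) hBd.le
  have hEb : CR * ((m : ℝ) * N) ^ η ≤ CR * (c0 ^ η * W ^ 3) :=
    mul_le_mul_of_nonneg_left hb3 hCR.le
  have hW0 : 0 < W := by linarith
  have hAb : (sA.card : ℝ) ≤ (CA * (c0 ^ η * W ^ 4) * (C' * W * Bd Y R)) *
      (CR * (c0 ^ η * W ^ 3)) := by
    refine hcardA.trans ?_
    refine mul_le_mul ?_ hEb (by positivity) (by positivity)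
    refine mul_le_mul ?_ hVb hV0.le (by positivity)
    exact mul_le_mul_of_nonneg_left hb1 hCA.le
  have hBb : ∀ k ∈ Icc 2 k0, ((s.filter (fun p => (radp m (f p) : ℝ) ≤
      V * (fk m (f p) k : ℝ) ^ ((1 : ℝ) / 3))).card : ℝ) ≤
      (CB k * (c0 ^ η * W ^ 4) * (C' * W * Bd Y R)) * (CR * (c0 ^ η * W ^ 3)) := by
    intro k hk
    have hCBk := hCB k
    refine (hcardB k hk).trans ?_
    refine mul_le_mul ?_ hEb (by positivity) (by positivity)
    refine mul_le_mul ?_ hVb hV0.le (by positivity)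
    exact mul_le_mul_of_nonneg_left hb2 (hCB k).le
  have hfinal : (s.card : ℝ) ≤ (S1 * (c0 ^ η * W ^ 4) * (C' * W * Bd Y R)) *
      (CR * (c0 ^ η * W ^ 3)) := by
    refine hcard1.trans ?_
    refine (add_le_add hAb (Finset.sum_le_sum hBb)).trans (le_of_eq ?_)
    rw [hS1, ← Finset.sum_mul, ← Finset.sum_mul, ← Finset.sum_mul]
    ring
  refine hfinal.trans (le_of_eq ?_)
  rw [← hW8]
  ring

end Pool.Agent.W214.CD
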